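import Pool.Agent.Helper15.BP.Slope
import Pool.Agent.Helper73.BG.Limit

/-!
# From finite 2-groups to measurable subsets of tori
-/

set_option autoImplicit false

namespace Pool.Agent.Helper36.BP

open MeasureTheory Pool.Agent.Helper15.BP

/-- The property of `A` used in all results: `m A - m A` contains a closed subtorus of
codimension at most `c`. -/
def HasSub (d m : ℕ) (A : Set (Fin d → UnitAddCircle)) (c : ℝ) : Prop :=
  ∃ (k : ℕ) (φ : (Fin k → UnitAddCircle) →+ (Fin d → UnitAddCircle)),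
    Continuous φ ∧ Function.Injective φ ∧ (d : ℝ) - k ≤ c ∧
    Set.range φ ⊆ {y | ∃ a b : Fin m → (Fin d → UnitAddCircle),
      (∀ l, a l ∈ A) ∧ (∀ l, b l ∈ A) ∧ y = (∑ l, a l) - (∑ l, b l)}

theorem HasSub.mono {d m : ℕ} {A : Set (Fin d → UnitAddCircle)} {c c' : ℝ} (h : HasSub d m A c)
    (hc : c ≤ c') : HasSub d m A c' := by
  obtain ⟨k, φ, h1, h2, h3, h4⟩ := h
  exact ⟨k, φ, h1, h2, h3.trans hc, h4⟩

/-- more summands -/
theorem HasSub.more {d m m' : ℕ} {A : Set (Fin d → UnitAddCircle)} {c : ℝ} (h : HasSub d m A c)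
    (hA : A.Nonempty) (hm : m ≤ m') : HasSub d m' A c := by
  obtain ⟨k, φ, h1, h2, h3, h4⟩ := h
  obtain ⟨a0, ha0⟩ := hA
  obtain ⟨r, rfl⟩ := Nat.exists_eq_add_of_le hm
  refine ⟨k, φ, h1, h2, h3, fun y hy => ?_⟩
  obtain ⟨a, b, ha, hb, hy⟩ := h4 hy
  refine ⟨Fin.append a (fun _ : Fin r => a0), Fin.append b (fun _ : Fin r => a0), ?_, ?_, ?_⟩
  · intro l
    refine Fin.addCases (fun i => ?_) (fun i => ?_) l
    · rw [Fin.append_left]; exact ha i
    · rw [Fin.append_right]; exact ha0
  · intro l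
    refine Fin.addCases (fun i => ?_) (fun i => ?_) l
    · rw [Fin.append_left]; exact hb i
    · rw [Fin.append_right]; exact ha0
  · rw [Fin.sum_univ_add, Fin.sum_univ_add]
    simp only [Fin.append_left, Fin.append_right]
    rw [hy]
    abel

theorem volume_pos {d : ℕ} {A : Set (Fin d → UnitAddCircle)} (hpos : 0 < volume A) :
    0 < (volume A).toReal :=
  ENNReal.toReal_pos hpos.ne' (measure_ne_top _ _)

theorem volume_le_one {d : ℕ} (A : Set (Fin d → UnitAddCircle)) :
    (volume A).toReal ≤ 1 := by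
  have h1 : volume A ≤ 1 := by
    rw [← Pool.Agent.Helper73.BG.volume_univ_torus d]
    exact measure_mono (Set.subset_univ _)
  have h2 := ENNReal.toReal_mono ENNReal.one_ne_top h1
  simpa using h2

theorem log_nonneg {d : ℕ} (A : Set (Fin d → UnitAddCircle)) :
    0 ≤ Real.log (1 / (volume A).toReal) := by
  rcases eq_or_lt_of_le (ENNReal.toReal_nonneg (a := volume A)) with h | h
  · rw [← h]; simp
  · exact Real.log_nonneg (by rw [le_div_iff₀ h]; linarith [volume_le_one A])

/-- **Transfer.**  A bound for all finite abelian 2-groups gives one for all tori. -/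
theorem torus_of_fin (m : ℕ) (F : ℝ → ℝ)
    (hF : ∀ x y : ℝ, 0 ≤ x → x ≤ y → F x ≤ F y)
    (hfin : ∀ (G : Type) [AddCommGroup G] [Finite G], (∃ k : ℕ, ∀ x : G, (2 ^ k : ℕ) • x = 0) →
      ∀ A : Finset G, A.Nonempty → ∃ V : AddSubgroup G,
        Real.log (V ⊔ dbl G).index ≤ F (Real.log (Nat.card G) - Real.log A.card) ∧
        ∀ v ∈ V, ∃ a b : Fin m → G, (∀ i, a i ∈ A) ∧ (∀ i, b i ∈ A) ∧
          v = ∑ i, a i - ∑ i, b i)
    (d : ℕ) (A : Set (Fin d → UnitAddCircle)) (hA : MeasurableSet A) (hpos : 0 < volume A) :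
    HasSub d m A (F (Real.log 2 + Real.log (1 / (volume A).toReal)) / Real.log 2) := by
  classical
  have hv := volume_pos hpos
  set v : ℝ := (volume A).toReal with hvdef
  have hlog2 : 0 < Real.log 2 := Real.log_pos (by norm_num)
  have h := Pool.Agent.Helper73.BG.torus_limit_meas d m
    (F (Real.log 2 + Real.log (1 / v)) / Real.log 2) (v / 2) ?_ A hA (by linarith)
  · exact h
  · intro k B hB
    have : NeZero (2 ^ k : ℕ) := ⟨by positivity⟩
    have hpow : (0 : ℝ) < (2 ^ k : ℝ) ^ d := by positivity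
    have hBpos : (0 : ℝ) < B.card := lt_of_lt_of_le (by positivity) hB
    have hBne : B.Nonempty := Finset.card_pos.1 (by exact_mod_cast hBpos)
    obtain ⟨V, h1, h2⟩ := hfin (Fin d → ZMod (2 ^ k)) ⟨k, fun x => by
      funext i
      have : ((2 ^ k : ℕ) : ZMod (2 ^ k)) = 0 := ZMod.natCast_self _
      rw [Pi.smul_apply, nsmul_eq_mul, this, zero_mul, Pi.zero_apply]⟩ B hBne
    refine ⟨V, ?_, h2⟩
    have hc : (Nat.card (Fin d → ZMod (2 ^ k)) : ℝ) = (2 ^ k : ℝ) ^ d := by
      rw [Nat.card_pi]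
      simp
    have h3 : Real.log (Nat.card (Fin d → ZMod (2 ^ k))) - Real.log B.card ≤
        Real.log 2 + Real.log (1 / v) := by
      have h4 := Real.log_le_log (by positivity) hB
      rw [Real.log_mul (by positivity) (by positivity), Real.log_div hv.ne' (by norm_num)] at h4
      rw [hc, one_div, Real.log_inv]
      linarith
    have h5 : 0 ≤ Real.log (Nat.card (Fin d → ZMod (2 ^ k))) - Real.log B.card := by
      have h6 : B.card ≤ Nat.card (Fin d → ZMod (2 ^ k)) := by
        rw [Nat.card_eq_fintype_card]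
        exact Finset.card_le_univ B
      have h7 := Real.log_le_log hBpos (by exact_mod_cast h6 :
        (B.card : ℝ) ≤ Nat.card (Fin d → ZMod (2 ^ k)))
      linarith
    have h8 := hF _ _ h5 h3
    rw [div_mul_cancel₀ _ hlog2.ne']
    exact h1.trans h8

end Pool.Agent.Helper36.BP
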