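import Pool.Agent.Helper22.BP.FinT1
import Pool.Agent.Helper25.BP.Reg
import Pool.Agent.Helper26.BP.Iter
import Pool.Agent.Helper73.BG.MFold
import Pool.Agent.Helper36.BP.Torus

/-!
# Results for tori from the near optimal contraction of `m`-fold sums
-/

set_option autoImplicit false

namespace Pool.Agent.Helper36.BP

open MeasureTheory Pool.Agent.Helper15.BP

/-- near optimal contraction of `(m + 1)`-fold sums, for finite abelian 2-groups -/
def NearOpt (m : ℕ) (a : ℝ) : Prop :=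
  ∃ C : ℝ, 1 ≤ C ∧ ∀ κ : ℝ, 0 < κ → κ ≤ 1 → ContrRM m κ (C * κ ^ a)

/-- the choice of the slope -/
theorem choose_k {a : ℝ} (ha : 0 < a) {C L : ℝ} (hC : 1 ≤ C) (hL : 0 ≤ L) :
    ∃ κ : ℝ, 0 < κ ∧ κ ≤ 1 ∧ C * κ ^ a * L ≤ 1 / 2 ∧
      L / κ ≤ (2 * C) ^ (1 / a) * (1 + L) ^ (1 + 1 / a) := by
  have hb : (0 : ℝ) < 2 * C * (1 + L) := by positivity
  have hb1 : (1 : ℝ) ≤ 2 * C * (1 + L) := by nlinarith
  refine ⟨(2 * C * (1 + L)) ^ (-(1 / a)), Real.rpow_pos_of_pos hb _, ?_, ?_, ?_⟩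
  · exact Real.rpow_le_one_of_one_le_of_nonpos hb1 (by
      have : 0 < 1 / a := by positivity
      linarith)
  · rw [← Real.rpow_mul hb.le]
    have e1 : -(1 / a) * a = -1 := by field_simp
    rw [e1, Real.rpow_neg_one]
    have e2 : C * (2 * C * (1 + L))⁻¹ * L = L / (1 + L) / 2 := by
      field_simp
    rw [e2]
    have e3 : L / (1 + L) ≤ 1 := by
      rw [div_le_one (by linarith)]
      linarith
    linarith
  · rw [Real.rpow_neg hb.le, div_inv_eq_mul, Real.mul_rpow (by positivity) (by linarith),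
      Real.rpow_add (by linarith), Real.rpow_one]
    have h2 : (0 : ℝ) ≤ (1 + L) ^ (1 / a) := Real.rpow_nonneg (by linarith) _
    have h3 : (0 : ℝ) ≤ (2 * C) ^ (1 / a) := by positivity
    calc L * ((2 * C) ^ (1 / a) * (1 + L) ^ (1 / a))
        ≤ (1 + L) * ((2 * C) ^ (1 / a) * (1 + L) ^ (1 / a)) :=
          mul_le_mul_of_nonneg_right (by linarith) (by positivity)
      _ = (2 * C) ^ (1 / a) * ((1 + L) * (1 + L) ^ (1 / a)) := by ring

/-- the finite theorem for `(m + 1)`-fold sums -/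
theorem fin_of_nearOpt (m : ℕ) (a : ℝ) (ha : 0 < a) (h : NearOpt m a) :
    ∃ C : ℝ, 0 < C ∧ ∀ (G : Type) [AddCommGroup G] [Finite G],
      (∃ k : ℕ, ∀ x : G, (2 ^ k : ℕ) • x = 0) → ∀ A : Finset G, A.Nonempty →
      ∃ V : AddSubgroup G, Real.log (V ⊔ dbl G).index ≤
          C * (1 + (Real.log (Nat.card G) - Real.log A.card)) ^ (1 + 1 / a) ∧
        ∀ v ∈ V, ∃ a b : Fin (m + 1) → G, (∀ i, a i ∈ A) ∧ (∀ i, b i ∈ A) ∧
          v = ∑ i, a i - ∑ i, b i := by
  classical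
  obtain ⟨C₀, hC₀, hc⟩ := h
  refine ⟨(2 * C₀) ^ (1 / a), by positivity, ?_⟩
  intro G _ _ hexp A hA
  set L : ℝ := Real.log (Nat.card G) - Real.log A.card with hLdef
  have hL : 0 ≤ L := by
    have h1 : (A.card : ℝ) ≤ Nat.card G := by
      have h2 : A.card ≤ Nat.card G := by
        rw [← Set.ncard_coe_finset, ← Set.ncard_univ]
        exact Set.ncard_le_ncard (Set.subset_univ _) (Set.toFinite _)
      exact_mod_cast h2
    have h3 : (0 : ℝ) < A.card := by exact_mod_cast hA.card_pos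
    have := Real.log_le_log h3 h1
    linarith
  obtain ⟨κ, hκ0, hκ1, hκL, hκC⟩ := choose_k ha hC₀ hL
  obtain ⟨V, x, B, hsl, hD, hval⟩ := Pool.Agent.Helper25.BP.reg A hA κ hκ0
  have hBD : 0 ≤ B.D ⊥ := B.D_nonneg ⊥
  have hidx : 0 ≤ Real.log (V ⊔ dbl G).index := Real.log_natCast_nonneg _
  have hBL : B.D ⊥ ≤ L := by
    have : 0 ≤ κ * Real.log (V ⊔ dbl G).index := mul_nonneg hκ0.le hidx
    linarith
  have hVexp : ∃ k : ℕ, ∀ v : V, (2 ^ k : ℕ) • v = 0 := by
    obtain ⟨k, hk⟩ := hexp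
    exact ⟨k, fun v => Subtype.ext (by
      rw [AddSubgroup.coe_nsmul, hk, AddSubgroup.coe_zero])⟩
  have hsmall : (B.mF m).D ⊥ < Real.log 2 := by
    have h1 := hc κ hκ0 hκ1 V hVexp B hsl
    have h2 : C₀ * κ ^ a * B.D ⊥ ≤ C₀ * κ ^ a * L :=
      mul_le_mul_of_nonneg_left hBL (by positivity)
    have h3 := Real.log_two_gt_d9
    linarith
  refine ⟨V, ?_, support_diff_m (A : Set G) V x B hval m hsmall⟩
  have h1 : κ * Real.log (V ⊔ dbl G).index ≤ L := by linarith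
  have h2 : Real.log (V ⊔ dbl G).index ≤ L / κ := by
    rw [le_div_iff₀ hκ0]
    linarith
  exact h2.trans hκC

/-- `(1 + (log 2 + L)) ^ e` against `(1 + L) ^ e` -/
theorem shift_le {L e : ℝ} (hL : 0 ≤ L) (he : 0 ≤ e) :
    (1 + (Real.log 2 + L)) ^ e ≤ 2 ^ e * (1 + L) ^ e := by
  have h2 : Real.log 2 < 1 := by
    have := Real.log_two_lt_d9
    linarith
  have h1 : 0 < Real.log 2 := Real.log_pos (by norm_num)
  calc (1 + (Real.log 2 + L)) ^ e ≤ (2 * (1 + L)) ^ e :=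
        Real.rpow_le_rpow (by linarith) (by linarith) he
    _ = 2 ^ e * (1 + L) ^ e := Real.mul_rpow (by norm_num) (by linarith)

/-- from the contraction to the torus, `(m + 1)` summands -/
theorem torus_of_nearOpt (m : ℕ) (a : ℝ) (ha : 0 < a) (h : NearOpt m a) :
    ∃ C : ℝ, 0 < C ∧ ∀ (d : ℕ) (A : Set (Fin d → UnitAddCircle)), MeasurableSet A → 0 < volume A →
      HasSub d (m + 1) A (C * (1 + Real.log (1 / (volume A).toReal)) ^ (1 + 1 / a)) := by
  obtain ⟨C, hC, h⟩ := fin_of_nearOpt m a ha h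
  have hlog2 : 0 < Real.log 2 := Real.log_pos (by norm_num)
  have he : 0 ≤ 1 + 1 / a := by positivity
  refine ⟨C * 2 ^ (1 + 1 / a) / Real.log 2, by positivity, ?_⟩
  intro d A hA hne
  have hT := torus_of_fin (m + 1) (fun x => C * (1 + x) ^ (1 + 1 / a))
    (fun x y hx hxy => mul_le_mul_of_nonneg_left
      (Real.rpow_le_rpow (by linarith) (by linarith) he) hC.le)
    (fun G _ _ hG B hB => h G hG B hB) d A hA hne
  refine hT.mono ?_
  have hL := log_nonneg A
  set L := Real.log (1 / (volume A).toReal) with hLdef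
  calc C * (1 + (Real.log 2 + L)) ^ (1 + 1 / a) / Real.log 2
      ≤ C * (2 ^ (1 + 1 / a) * (1 + L) ^ (1 + 1 / a)) / Real.log 2 :=
        div_le_div_of_nonneg_right (mul_le_mul_of_nonneg_left (shift_le hL he) hC.le) hlog2.le
    _ = C * 2 ^ (1 + 1 / a) / Real.log 2 * (1 + L) ^ (1 + 1 / a) := by ring

/-- **R1.**  Codimension `(1 + L) ^ (m / (m - 1) + ε)` inside `m A - m A`. -/
theorem r1_of (h : ∀ m : ℕ, 1 ≤ m → ∀ ε : ℝ, 0 < ε → NearOpt m (m - ε)) :
    ∀ m : ℕ, 2 ≤ m → ∀ ε : ℝ, 0 < ε → ∃ C : ℝ, 0 < C ∧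
      ∀ (d : ℕ) (A : Set (Fin d → UnitAddCircle)), MeasurableSet A → 0 < volume A →
        HasSub d m A (C * (1 + Real.log (1 / (volume A).toReal)) ^ ((m : ℝ) / (m - 1) + ε)) := by
  intro m hm ε hε
  obtain ⟨n, rfl⟩ : ∃ n, m = n + 1 := ⟨m - 1, by omega⟩
  have hn : 1 ≤ n := by omega
  have hn' : (0 : ℝ) < n := by exact_mod_cast hn
  set ε' : ℝ := ε * n ^ 2 / (1 + ε * n) with hε'
  have hε'0 : 0 < ε' := by positivity
  have ha : (n : ℝ) - ε' = n / (1 + ε * n) := by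
    rw [hε']
    field_simp
    ring
  have ha0 : 0 < (n : ℝ) - ε' := by
    rw [ha]
    positivity
  have he : 1 + 1 / ((n : ℝ) - ε') = ((n + 1 : ℕ) : ℝ) / ((n + 1 : ℕ) - 1) + ε := by
    have e1 : ((n + 1 : ℕ) : ℝ) - 1 = n := by push_cast; ring
    rw [ha, e1]
    push_cast
    field_simp
    ring
  obtain ⟨C, hC, h1⟩ := torus_of_nearOpt n ((n : ℝ) - ε') ha0 (h n hn ε' hε'0)
  refine ⟨C, hC, fun d A hA hne => ?_⟩
  have h2 := h1 d A hA hne
  rw [he] at h2
  exact h2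

/-- uniform version for two-fold contraction with exponent `c` -/
theorem t1_of (c : ℝ) (hc : 0 < c) (h : NearOpt 1 c) :
    ∃ C : ℝ, 0 < C ∧ ∀ (d : ℕ) (A : Set (Fin d → UnitAddCircle)), MeasurableSet A →
    0 < volume A → ∀ j : ℕ, 1 ≤ j → HasSub d (2 ^ j) A
      (C * (1 + Real.log (1 / (volume A).toReal)) ^ (1 + 1 / ((1 + c) ^ j - 1) : ℝ)) := by
  classical
  obtain ⟨C₀, hC₀, hcon⟩ := h
  have hC1 : (1 : ℝ) ≤ C₀ ^ (1 / c) := Real.one_le_rpow hC₀ (by positivity)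
  have hiter := iter_of_power hC₀ hc (fun κ h0 h1 => hcon κ h0 h1)
  have hlog2 : 0 < Real.log 2 := Real.log_pos (by norm_num)
  set C : ℝ := C₀ ^ (1 / c) * 2 ^ (1 / c) with hCdef
  have hC : 0 < C := by positivity
  refine ⟨C * 2 ^ (1 + 1 / c) / Real.log 2, by positivity, ?_⟩
  intro d A hA hne j hj
  have hγ : c ≤ (1 + c) ^ j - 1 := by
    have h1 : (1 + c) ^ 1 ≤ (1 + c) ^ j := pow_le_pow_right₀ (by linarith) hj
    rw [pow_one] at h1
    linarith
  have hγ0 : 0 < (1 + c) ^ j - 1 := lt_of_lt_of_le hc hγ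
  set e : ℝ := (1 + 1 / ((1 + c) ^ j - 1) : ℝ) with he
  have he0 : 0 ≤ e := by positivity
  have he1 : e ≤ 1 + 1 / c := by
    have := one_div_le_one_div_of_le hc hγ
    linarith
  have hfin : ∀ (G : Type) [AddCommGroup G] [Finite G],
      (∃ k : ℕ, ∀ x : G, (2 ^ k : ℕ) • x = 0) → ∀ A : Finset G, A.Nonempty →
      ∃ V : AddSubgroup G, Real.log (V ⊔ dbl G).index ≤
          C * (1 + (Real.log (Nat.card G) - Real.log A.card)) ^ e ∧
        ∀ v ∈ V, ∃ a b : Fin (2 ^ j) → G, (∀ i, a i ∈ A) ∧ (∀ i, b i ∈ A) ∧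
          v = ∑ i, a i - ∑ i, b i := by
    intro G _ _ hexp B hB
    set L : ℝ := Real.log (Nat.card G) - Real.log B.card with hLdef
    have hL : 0 ≤ L := by
      have h1 : (B.card : ℝ) ≤ Nat.card G := by
        have h2 : B.card ≤ Nat.card G := by
          rw [← Set.ncard_coe_finset, ← Set.ncard_univ]
          exact Set.ncard_le_ncard (Set.subset_univ _) (Set.toFinite _)
        exact_mod_cast h2
      have h3 : (0 : ℝ) < B.card := by exact_mod_cast hB.card_pos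
      have := Real.log_le_log h3 h1
      linarith
    obtain ⟨X, hX0, hX1, hXL, hXC⟩ := FT1.choose_X hc hL hj
    have hκ : 0 < X / C₀ ^ (1 / c) := by positivity
    obtain ⟨V, x, Y, hsl, hD, hval⟩ := Pool.Agent.Helper25.BP.reg B hB _ hκ
    have hBD : 0 ≤ Y.D ⊥ := Y.D_nonneg ⊥
    have hidx : 0 ≤ Real.log (V ⊔ dbl G).index := Real.log_natCast_nonneg _
    have hBL : Y.D ⊥ ≤ L := by
      have : 0 ≤ X / C₀ ^ (1 / c) * Real.log (V ⊔ dbl G).index := mul_nonneg hκ.le hidx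
      linarith
    have hVexp : ∃ k : ℕ, ∀ v : V, (2 ^ k : ℕ) • v = 0 := by
      obtain ⟨k, hk⟩ := hexp
      exact ⟨k, fun v => Subtype.ext (by
        rw [AddSubgroup.coe_nsmul, hk, AddSubgroup.coe_zero])⟩
    have hsmall : (twoPow Y j).D ⊥ < Real.log 2 := by
      have h1 := (hiter V hVexp Y X hX0 hX1 hsl j).2
      have h2 : X ^ ((1 + c) ^ j - 1 : ℝ) * Y.D ⊥ ≤ X ^ ((1 + c) ^ j - 1 : ℝ) * L :=
        mul_le_mul_of_nonneg_left hBL (Real.rpow_nonneg hX0.le _)
      have h3 := Real.log_two_gt_d9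
      linarith
    refine ⟨V, ?_, Pool.Agent.Helper25.BP.support_diff (B : Set G) V x Y hval j hsmall⟩
    have h1 : X / C₀ ^ (1 / c) * Real.log (V ⊔ dbl G).index ≤ L := by linarith
    have h2 : Real.log (V ⊔ dbl G).index ≤ C₀ ^ (1 / c) * (L / X) := by
      have e' : Real.log (V ⊔ dbl G).index =
          C₀ ^ (1 / c) / X * (X / C₀ ^ (1 / c) * Real.log (V ⊔ dbl G).index) := by
        field_simp
      rw [e']
      have h3 : C₀ ^ (1 / c) * (L / X) = C₀ ^ (1 / c) / X * L := by ring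
      rw [h3]
      exact mul_le_mul_of_nonneg_left h1 (by positivity)
    calc Real.log (V ⊔ dbl G).index ≤ C₀ ^ (1 / c) * (L / X) := h2
      _ ≤ C₀ ^ (1 / c) * ((2 : ℝ) ^ (1 / c) * (1 + L) ^ e) :=
          mul_le_mul_of_nonneg_left hXC (by positivity)
      _ = C * (1 + L) ^ e := by rw [hCdef]; ring
  have hT := torus_of_fin (2 ^ j) (fun x => C * (1 + x) ^ e)
    (fun x y hx hxy => mul_le_mul_of_nonneg_left
      (Real.rpow_le_rpow (by linarith) (by linarith) he0) hC.le) hfin d A hA hne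
  refine hT.mono ?_
  have hL := log_nonneg A
  set L := Real.log (1 / (volume A).toReal) with hLdef
  have h1 : (1 + (Real.log 2 + L)) ^ e ≤ 2 ^ (1 + 1 / c) * (1 + L) ^ e :=
    (shift_le hL he0).trans (mul_le_mul_of_nonneg_right
      (Real.rpow_le_rpow_of_exponent_le (by norm_num) he1) (Real.rpow_nonneg (by linarith) _))
  calc C * (1 + (Real.log 2 + L)) ^ e / Real.log 2
      ≤ C * (2 ^ (1 + 1 / c) * (1 + L) ^ e) / Real.log 2 :=
        div_le_div_of_nonneg_right (mul_le_mul_of_nonneg_left h1 hC.le) hlog2.le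
    _ = C * 2 ^ (1 + 1 / c) / Real.log 2 * (1 + L) ^ e := by ring

/-- linear codimension from two-fold contraction with exponent `c` -/
theorem t3_of (c : ℝ) (hc : 0 < c) (h : NearOpt 1 c) :
    ∃ C : ℝ, 0 < C ∧ ∀ (d : ℕ) (A : Set (Fin d → UnitAddCircle)), MeasurableSet A →
    0 < volume A → ∀ m : ℕ, C * (1 + Real.log (1 + Real.log (1 / (volume A).toReal))) ^
        (Real.log 2 / Real.log (1 + c)) ≤ m →
      HasSub d m A (C * (1 + Real.log (1 / (volume A).toReal))) := by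
  obtain ⟨C, hC, h⟩ := t1_of c hc h
  have hlogc : 0 < Real.log (1 + c) := Real.log_pos (by linarith)
  have hlog2 : 0 < Real.log 2 := Real.log_pos (by norm_num)
  set κ : ℝ := Real.log 2 / Real.log (1 + c) with hκ
  have hκ0 : 0 < κ := by positivity
  set C1 : ℝ := max (2 * 2 ^ κ) (C * Real.exp 1) with hC1
  have hC1a : 2 * 2 ^ κ ≤ C1 := le_max_left _ _
  have hC1c : C * Real.exp 1 ≤ C1 := le_max_right _ _
  have hC10 : 0 < C1 := lt_of_lt_of_le (by positivity) hC1a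
  refine ⟨C1, hC10, ?_⟩
  intro d A hA hne m hm
  have hL := log_nonneg A
  set L := Real.log (1 / (volume A).toReal) with hLdef
  have hx : 0 ≤ Real.log (1 + L) := Real.log_nonneg (by linarith)
  set x := Real.log (1 + L) with hxdef
  set j : ℕ := ⌈Real.log (2 + x) / Real.log (1 + c)⌉₊ with hj
  have hlogx : 0 < Real.log (2 + x) := Real.log_pos (by linarith)
  have hj1 : 1 ≤ j := Nat.one_le_ceil_iff.2 (by positivity)
  have hj2 : Real.log (2 + x) / Real.log (1 + c) ≤ j := Nat.le_ceil _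
  have hj3 : (j : ℝ) < Real.log (2 + x) / Real.log (1 + c) + 1 := Nat.ceil_lt_add_one (by positivity)
  have h1 : 2 + x ≤ (1 + c) ^ j := by
    rw [div_le_iff₀ hlogc] at hj2
    have h2 := Real.exp_le_exp.2 hj2
    rw [Real.exp_log (by linarith)] at h2
    calc 2 + x ≤ Real.exp (j * Real.log (1 + c)) := h2
      _ = (1 + c) ^ j := by
        rw [Real.exp_nat_mul, Real.exp_log (by linarith)]
  have h2 : ((2 ^ j : ℕ) : ℝ) ≤ m := by
    refine le_trans ?_ hm
    have h3 : ((2 ^ j : ℕ) : ℝ) = Real.exp (j * Real.log 2) := by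
      rw [Real.exp_nat_mul, Real.exp_log (by norm_num)]
      norm_num
    rw [h3]
    calc Real.exp (j * Real.log 2)
        ≤ Real.exp ((Real.log (2 + x) / Real.log (1 + c) + 1) * Real.log 2) :=
          Real.exp_le_exp.2 (mul_le_mul_of_nonneg_right hj3.le hlog2.le)
      _ = 2 * (2 + x) ^ κ := by
          rw [Real.rpow_def_of_pos (by linarith), add_mul, one_mul, Real.exp_add,
            Real.exp_log (by norm_num : (0 : ℝ) < 2), mul_comm, hκ]
          congr 2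
          ring
      _ ≤ 2 * (2 * (1 + x)) ^ κ :=
          mul_le_mul_of_nonneg_left (Real.rpow_le_rpow (by linarith) (by linarith) hκ0.le)
            (by norm_num)
      _ = 2 * 2 ^ κ * (1 + x) ^ κ := by
          rw [Real.mul_rpow (by norm_num) (by linarith)]; ring
      _ ≤ C1 * (1 + x) ^ κ :=
          mul_le_mul_of_nonneg_right hC1a (Real.rpow_nonneg (by linarith) _)
  have h3 : (2 ^ j : ℕ) ≤ m := by exact_mod_cast h2
  refine ((h d A hA hne j hj1).mono ?_).more (nonempty_of_measure_ne_zero hne.ne') h3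
  have hγ : 0 < (1 + c) ^ j - 1 := by linarith
  have h4 : (1 + L) ^ (1 + 1 / ((1 + c) ^ j - 1) : ℝ) ≤ Real.exp 1 * (1 + L) := by
    rw [Real.rpow_add (by linarith), Real.rpow_one, mul_comm]
    refine mul_le_mul_of_nonneg_right ?_ (by linarith)
    rw [Real.rpow_def_of_pos (by linarith)]
    refine Real.exp_le_exp.2 ?_
    rw [mul_one_div, div_le_one hγ]
    linarith
  calc C * (1 + L) ^ (1 + 1 / ((1 + c) ^ j - 1) : ℝ) ≤ C * (Real.exp 1 * (1 + L)) :=
        mul_le_mul_of_nonneg_left h4 hC.le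
    _ = C * Real.exp 1 * (1 + L) := by ring
    _ ≤ C1 * (1 + L) := mul_le_mul_of_nonneg_right hC1c (by linarith)

/-- **R3.**  Linear codimension for `(loglog (1 / α)) ^ (1 + ε)` summands. -/
theorem r3_of (h : ∀ ε : ℝ, 0 < ε → NearOpt 1 (1 - ε)) :
    ∀ ε : ℝ, 0 < ε → ∃ C : ℝ, 0 < C ∧
      ∀ (d : ℕ) (A : Set (Fin d → UnitAddCircle)), MeasurableSet A → 0 < volume A → ∀ m : ℕ,
        C * (1 + Real.log (1 + Real.log (1 / (volume A).toReal))) ^ (1 + ε) ≤ m →
        HasSub d m A (C * (1 + Real.log (1 / (volume A).toReal))) := by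
  intro ε hε
  have hlog2 : 0 < Real.log 2 := Real.log_pos (by norm_num)
  -- c = 2 ^ (1 / (1 + ε)) - 1
  set c : ℝ := (2 : ℝ) ^ (1 / (1 + ε)) - 1 with hc
  have hc1 : 1 + c = (2 : ℝ) ^ (1 / (1 + ε)) := by rw [hc]; ring
  have hc0 : 0 < c := by
    have : (1 : ℝ) < 2 ^ (1 / (1 + ε)) := Real.one_lt_rpow (by norm_num) (by positivity)
    linarith
  have hclt : c < 1 := by
    have h1 : (2 : ℝ) ^ (1 / (1 + ε)) < 2 ^ (1 : ℝ) :=
      Real.rpow_lt_rpow_of_exponent_lt (by norm_num) (by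
        rw [div_lt_one (by linarith)]
        linarith)
    rw [Real.rpow_one] at h1
    linarith
  have hexp : Real.log 2 / Real.log (1 + c) = 1 + ε := by
    rw [hc1, Real.log_rpow (by norm_num)]
    field_simp
  have h1 : NearOpt 1 c := by
    have h2 := h (1 - c) (by linarith)
    have e : 1 - (1 - c) = c := by ring
    rwa [e] at h2
  obtain ⟨C, hC, h2⟩ := t3_of c hc0 h1
  refine ⟨C, hC, fun d A hA hne m hm => h2 d A hA hne m ?_⟩
  rw [hexp]
  exact hm

end Pool.Agent.Helper36.BP
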