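import Pool.Agent.Helper15.BP.Main
import Pool.Agent.Helper22.BP.FinT1
import Pool.Agent.Helper25.BP.Reg
import Pool.Agent.Helper36.BP.Torus

/-!
# Almost linear codimension for `2 ^ j` summands, linear codimension for polyloglog summands
-/

set_option autoImplicit false

namespace Pool.Agent.Helper36.BP

open MeasureTheory Pool.Agent.Helper15.BP

/-- The finite theorem. -/
theorem finT1 : ∃ C c : ℝ, 0 < C ∧ 0 < c ∧ ∀ (G : Type) [AddCommGroup G] [Finite G],
    (∃ k : ℕ, ∀ x : G, (2 ^ k : ℕ) • x = 0) → ∀ A : Finset G, A.Nonempty → ∀ j : ℕ, 1 ≤ j →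
    ∃ V : AddSubgroup G, Real.log (V ⊔ dbl G).index ≤
        C * (1 + (Real.log (Nat.card G) - Real.log A.card)) ^ (1 + 1 / ((1 + c) ^ j - 1) : ℝ) ∧
      ∀ v ∈ V, ∃ a b : Fin (2 ^ j) → G, (∀ i, a i ∈ A) ∧ (∀ i, b i ∈ A) ∧
        v = ∑ i, a i - ∑ i, b i := by
  refine finT1_of (fun G _ _ _ A hA κ hκ => Pool.Agent.Helper25.BP.reg A hA κ hκ) ?_
  obtain ⟨C₀, c, h1, h2, h3⟩ := iter_final
  refine ⟨C₀, c, by linarith, h2, fun G _ _ hG A j X hX0 hX1 hA => ?_⟩
  exact (h3 G hG A X hX0 hX1 (by rwa [div_eq_inv_mul]) j).2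

/-- **T1.** -/
theorem t1 : ∃ C c : ℝ, 0 < C ∧ 0 < c ∧ ∀ (d : ℕ) (A : Set (Fin d → UnitAddCircle)), MeasurableSet A →
    0 < volume A → ∀ j : ℕ, 1 ≤ j → HasSub d (2 ^ j) A
      (C * (1 + Real.log (1 / (volume A).toReal)) ^ (1 + 1 / ((1 + c) ^ j - 1) : ℝ)) := by
  obtain ⟨C, c, hC, hc, h⟩ := finT1
  have hlog2 : 0 < Real.log 2 := Real.log_pos (by norm_num)
  have hlog2' : Real.log 2 < 1 := by
    have := Real.log_two_lt_d9
    linarith
  refine ⟨C * 2 ^ (1 + 1 / c) / Real.log 2, c, by positivity, hc, ?_⟩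
  intro d A hA hne j hj
  have hγ : c ≤ (1 + c) ^ j - 1 := by
    have h1 : (1 + c) ^ 1 ≤ (1 + c) ^ j := pow_le_pow_right₀ (by linarith) hj
    rw [pow_one] at h1
    linarith
  have hγ0 : 0 < (1 + c) ^ j - 1 := lt_of_lt_of_le hc hγ
  set e : ℝ := (1 + 1 / ((1 + c) ^ j - 1) : ℝ) with he
  have he0 : 0 ≤ e := by positivity
  have he1 : e ≤ 1 + 1 / c := by
    have := one_div_le_one_div_of_le hc hγ
    linarith
  have hT := torus_of_fin (2 ^ j) (fun x => C * (1 + x) ^ e)
    (fun x y hx hxy => mul_le_mul_of_nonneg_left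
      (Real.rpow_le_rpow (by linarith) (by linarith) he0) hC.le)
    (fun G _ _ hG B hB => h G hG B hB j hj) d A hA hne
  refine hT.mono ?_
  have hL := log_nonneg A
  set L := Real.log (1 / (volume A).toReal) with hLdef
  have h1 : (1 + (Real.log 2 + L)) ^ e ≤ 2 ^ (1 + 1 / c) * (1 + L) ^ e := by
    calc (1 + (Real.log 2 + L)) ^ e ≤ (2 * (1 + L)) ^ e :=
          Real.rpow_le_rpow (by linarith) (by linarith) he0
      _ = 2 ^ e * (1 + L) ^ e := Real.mul_rpow (by norm_num) (by linarith)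
      _ ≤ 2 ^ (1 + 1 / c) * (1 + L) ^ e :=
          mul_le_mul_of_nonneg_right (Real.rpow_le_rpow_of_exponent_le (by norm_num) he1)
            (Real.rpow_nonneg (by linarith) _)
  calc C * (1 + (Real.log 2 + L)) ^ e / Real.log 2
      ≤ C * (2 ^ (1 + 1 / c) * (1 + L) ^ e) / Real.log 2 :=
        div_le_div_of_nonneg_right (mul_le_mul_of_nonneg_left h1 hC.le) hlog2.le
    _ = C * 2 ^ (1 + 1 / c) / Real.log 2 * (1 + L) ^ e := by ring

/-- **T3.**  Linear codimension, with polyloglog summands. -/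
theorem t3 : ∃ C : ℝ, 0 < C ∧ ∀ (d : ℕ) (A : Set (Fin d → UnitAddCircle)), MeasurableSet A →
    0 < volume A → ∀ m : ℕ, C * (1 + Real.log (1 + Real.log (1 / (volume A).toReal))) ^ C ≤ m →
      HasSub d m A (C * (1 + Real.log (1 / (volume A).toReal))) := by
  obtain ⟨C, c, hC, hc, h⟩ := t1
  have hlogc : 0 < Real.log (1 + c) := Real.log_pos (by linarith)
  have hlog2 : 0 < Real.log 2 := Real.log_pos (by norm_num)
  set κ : ℝ := Real.log 2 / Real.log (1 + c) with hκ
  have hκ0 : 0 < κ := by positivity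
  set C1 : ℝ := max (2 * 2 ^ κ) (max κ (C * Real.exp 1)) with hC1
  have hC1a : 2 * 2 ^ κ ≤ C1 := le_max_left _ _
  have hC1b : κ ≤ C1 := (le_max_left _ _).trans (le_max_right _ _)
  have hC1c : C * Real.exp 1 ≤ C1 := (le_max_right _ _).trans (le_max_right _ _)
  have hC10 : 0 < C1 := lt_of_lt_of_le (by positivity) hC1a
  refine ⟨C1, hC10, ?_⟩
  intro d A hA hne m hm
  have hL := log_nonneg A
  set L := Real.log (1 / (volume A).toReal) with hLdef
  have hx : 0 ≤ Real.log (1 + L) := Real.log_nonneg (by linarith)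
  set x := Real.log (1 + L) with hxdef
  -- the number of rounds
  set j : ℕ := ⌈Real.log (2 + x) / Real.log (1 + c)⌉₊ with hj
  have hlogx : 0 < Real.log (2 + x) := Real.log_pos (by linarith)
  have hj1 : 1 ≤ j := Nat.one_le_ceil_iff.2 (by positivity)
  have hj2 : Real.log (2 + x) / Real.log (1 + c) ≤ j := Nat.le_ceil _
  have hj3 : (j : ℝ) < Real.log (2 + x) / Real.log (1 + c) + 1 := Nat.ceil_lt_add_one (by positivity)
  have h1 : 2 + x ≤ (1 + c) ^ j := by
    rw [div_le_iff₀ hlogc] at hj2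
    have h2 := Real.exp_le_exp.2 hj2
    rw [Real.exp_log (by linarith)] at h2
    calc 2 + x ≤ Real.exp (j * Real.log (1 + c)) := h2
      _ = (1 + c) ^ j := by
        rw [Real.exp_nat_mul, Real.exp_log (by linarith)]
  have h2 : ((2 ^ j : ℕ) : ℝ) ≤ m := by
    refine le_trans ?_ hm
    have h3 : ((2 ^ j : ℕ) : ℝ) = Real.exp (j * Real.log 2) := by
      rw [Real.exp_nat_mul, Real.exp_log (by norm_num)]
      norm_num
    rw [h3]
    calc Real.exp (j * Real.log 2)
        ≤ Real.exp ((Real.log (2 + x) / Real.log (1 + c) + 1) * Real.log 2) :=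
          Real.exp_le_exp.2 (mul_le_mul_of_nonneg_right hj3.le hlog2.le)
      _ = 2 * (2 + x) ^ κ := by
          rw [Real.rpow_def_of_pos (by linarith), add_mul, one_mul, Real.exp_add,
            Real.exp_log (by norm_num : (0 : ℝ) < 2), mul_comm, hκ]
          congr 2
          ring
      _ ≤ 2 * (2 * (1 + x)) ^ κ :=
          mul_le_mul_of_nonneg_left (Real.rpow_le_rpow (by linarith) (by linarith) hκ0.le)
            (by norm_num)
      _ = 2 * 2 ^ κ * (1 + x) ^ κ := by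
          rw [Real.mul_rpow (by norm_num) (by linarith)]; ring
      _ ≤ C1 * (1 + x) ^ C1 :=
          mul_le_mul hC1a (Real.rpow_le_rpow_of_exponent_le (by linarith) hC1b)
            (Real.rpow_nonneg (by linarith) _) hC10.le
  have h3 : (2 ^ j : ℕ) ≤ m := by exact_mod_cast h2
  refine ((h d A hA hne j hj1).mono ?_).more (nonempty_of_measure_ne_zero hne.ne') h3
  have hγ : 0 < (1 + c) ^ j - 1 := by linarith
  have h4 : (1 + L) ^ (1 + 1 / ((1 + c) ^ j - 1) : ℝ) ≤ Real.exp 1 * (1 + L) := by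
    rw [Real.rpow_add (by linarith), Real.rpow_one, mul_comm]
    refine mul_le_mul_of_nonneg_right ?_ (by linarith)
    rw [Real.rpow_def_of_pos (by linarith)]
    refine Real.exp_le_exp.2 ?_
    rw [mul_one_div, div_le_one hγ]
    linarith
  calc C * (1 + L) ^ (1 + 1 / ((1 + c) ^ j - 1) : ℝ) ≤ C * (Real.exp 1 * (1 + L)) :=
        mul_le_mul_of_nonneg_left h4 hC.le
    _ = C * Real.exp 1 * (1 + L) := by ring
    _ ≤ C1 * (1 + L) := mul_le_mul_of_nonneg_right hC1c (by linarith)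

end Pool.Agent.Helper36.BP
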